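import Pool.Agent.MWF.Stmts

/-!
# Squad MWF, row OPR (helper39): duality on lists
-/

set_option autoImplicit false

namespace Pool.Agent.MWF.H39

open Pool.Agent.Helper14_MV Pool.Agent.Helper2_MV

theorem rr_op (β : FIC) (l l' : List ℕ) : RR (FIC.op β) l l' ↔ RR β l.reverse l'.reverse :=
  Iff.rfl

/-- row OPR -/
theorem opr : OprStmt := by
  intro β
  refine ⟨rr_op β, ?_, fun h => op_modF h, ?_⟩
  · intro h
    refine ⟨?_, ?_⟩
    · rw [rr_op]
      exact h.sq
    · rw [rr_op]
      exact h.ncr
  · apply FIC.ext'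
    intro a b
    change β.r a.reverse.reverse b.reverse.reverse ↔ β.r a b
    rw [FreeMonoid.reverse_reverse, FreeMonoid.reverse_reverse]

end Pool.Agent.MWF.H39
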